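import Pool.Agent.Q272.FC.BA
import Mathlib.Analysis.SpecialFunctions.Gaussian.FourierTransform

set_option autoImplicit false

set_option maxHeartbeats 400000

open MeasureTheory

namespace Pool.Agent.Q272.FC.GL

open Pool.Agent.W716.FV (E gam gd UU)
open Pool.Agent.Q188.FC
open Pool.Agent.Q272.FC.BA

variable {n : ℕ}

lemma Cc_cont {φ : E n → ℝ} (h : Cc φ) : Continuous φ := by
  have : LipschitzWith 1 φ := by
    apply LipschitzWith.of_dist_le_mul
    intro x y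
    rw [Real.dist_eq, dist_eq_norm]
    simpa using h.lip x y
  exact this.continuous

lemma Cc_zero {φ : E n → ℝ} (h : Cc φ) : φ 0 = 0 := by
  have := h.hom 0 0
  simpa using this

lemma Cc_le {φ : E n → ℝ} (h : Cc φ) (y : E n) : |φ y| ≤ ‖y‖ := by
  have := h.lip y 0
  rw [Cc_zero h, sub_zero, sub_zero] at this
  exact this

lemma int_exp (n : ℕ) {c : ℝ} (hc : 0 < c) :
    Integrable (fun y : E n => Real.exp (-(c * ‖y‖ ^ 2))) := by
  have h := GaussianFourier.integrable_cexp_neg_mul_sq_norm_add (V := E n) (b := (c : ℂ))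
    (by simpa using hc) 0 0
  have h2 := h.norm
  refine h2.congr ?_
  filter_upwards with y
  rw [Complex.norm_exp]
  congr 1
  simp only [zero_mul, add_zero]
  have : (-(c : ℂ) * ((‖y‖ : ℝ) : ℂ) ^ 2) = ((-(c * ‖y‖ ^ 2) : ℝ) : ℂ) := by
    push_cast
    ring
  rw [this, Complex.ofReal_re]

lemma le_exp_aux {c : ℝ} (hc : 0 < c) (r : ℝ) (hr : 0 ≤ r) :
    r * Real.exp (-(c * r ^ 2)) ≤ (1 + 1 / c) * Real.exp (-(c / 2 * r ^ 2)) := by
  have h1 : Real.exp (-(c * r ^ 2)) = Real.exp (-(c / 2 * r ^ 2)) * Real.exp (-(c / 2 * r ^ 2)) := by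
    rw [← Real.exp_add]
    congr 1
    ring
  have h2 : c / 2 * r ^ 2 + 1 ≤ Real.exp (c / 2 * r ^ 2) := Real.add_one_le_exp _
  have h3 : Real.exp (c / 2 * r ^ 2) * Real.exp (-(c / 2 * r ^ 2)) = 1 := by
    rw [← Real.exp_add]
    simp
  have h4 : r ≤ (1 + 1 / c) * Real.exp (c / 2 * r ^ 2) := by
    have e1 : 0 < 1 / c := by positivity
    have e2 : (1 + 1 / c) * (c / 2 * r ^ 2 + 1) ≤ (1 + 1 / c) * Real.exp (c / 2 * r ^ 2) :=
      mul_le_mul_of_nonneg_left h2 (by positivity)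
    have e3 : (1 + 1 / c) * (c / 2 * r ^ 2 + 1) = c / 2 * r ^ 2 + 1 + 1 / 2 * r ^ 2 + 1 / c := by
      field_simp
      ring
    have e4 : 0 ≤ c / 2 * r ^ 2 := by positivity
    nlinarith [sq_nonneg (r - 1)]
  have h5 := Real.exp_pos (-(c / 2 * r ^ 2))
  rw [h1, ← mul_assoc]
  apply mul_le_mul_of_nonneg_right _ h5.le
  calc r * Real.exp (-(c / 2 * r ^ 2)) ≤ (1 + 1 / c) * Real.exp (c / 2 * r ^ 2) *
        Real.exp (-(c / 2 * r ^ 2)) := mul_le_mul_of_nonneg_right h4 h5.le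
    _ = 1 + 1 / c := by rw [mul_assoc, h3, mul_one]

lemma int_mul_exp (n : ℕ) {c : ℝ} (hc : 0 < c) :
    Integrable (fun y : E n => ‖y‖ * Real.exp (-(c * ‖y‖ ^ 2))) := by
  have h := (int_exp n (c := c / 2) (by positivity)).const_mul (1 + 1 / c)
  refine h.mono' (by fun_prop) ?_
  filter_upwards with y
  rw [Real.norm_eq_abs, abs_of_nonneg (by positivity)]
  exact le_exp_aux hc _ (norm_nonneg _)

lemma abs_le_of_mem {a b t r : ℝ} (ha : |a| ≤ r) (hb : |b| ≤ r) (ht : t ∈ Set.uIoc a b) :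
    |t| ≤ r := by
  have h1 := abs_le.1 ha
  have h3 := abs_le.1 hb
  rw [Set.mem_uIoc] at ht
  rw [abs_le]
  rcases ht with ht | ht
  · exact ⟨by linarith [ht.1], by linarith [ht.2]⟩
  · exact ⟨by linarith [ht.1], by linarith [ht.2]⟩

section Gen

variable {k : ℝ → E n → E n} (hk : Continuous (fun q : ℝ × E n => k q.1 q.2))
  {c C : ℝ} (hc : 0 < c) (hC : 0 < C)
  (hb : ∀ (t : ℝ) (y : E n), |t| ≤ ‖y‖ → ‖k t y‖ ≤ C * Real.exp (-(c * ‖y‖ ^ 2)))

include hk in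
lemma in_cont {φ : E n → ℝ} (h : Cc φ) :
    Continuous (fun y : E n => ∫ t in (0 : ℝ)..φ y, k t y) := by
  have h1 : Continuous (Function.uncurry (fun (y : E n) (t : ℝ) => k t y)) :=
    hk.comp (continuous_snd.prodMk continuous_fst)
  exact intervalIntegral.continuous_parametric_intervalIntegral_of_continuous
    (f := fun (y : E n) (t : ℝ) => k t y) h1 (Cc_cont h)

include hb in
lemma in_bd {φ φ' : E n → ℝ} (h : Cc φ) (h' : Cc φ') (y : E n) :
    ‖∫ t in φ' y..φ y, k t y‖ ≤ C * Real.exp (-(c * ‖y‖ ^ 2)) * |φ y - φ' y| :=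
  intervalIntegral.norm_integral_le_of_norm_le_const (a := φ' y) (b := φ y)
      (f := fun t => k t y) (C := C * Real.exp (-(c * ‖y‖ ^ 2))) (fun t ht =>
        hb t y (abs_le_of_mem (Cc_le h' y) (Cc_le h y) ht))

include hk hb hc hC in
lemma in_int {φ : E n → ℝ} (h : Cc φ) :
    Integrable (fun y : E n => ∫ t in (0 : ℝ)..φ y, k t y) := by
  have hI := (int_mul_exp n hc).const_mul C
  refine hI.mono' (in_cont hk h).aestronglyMeasurable ?_
  filter_upwards with y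
  have h0 : Cc (fun _ : E n => (0 : ℝ)) := by
    constructor
    · intro x y
      simp
    · intro t x
      simp
  have e := in_bd hb h h0 y
  refine e.trans ?_
  have h1 := Cc_le h y
  have h4 : 0 ≤ C * Real.exp (-(c * ‖y‖ ^ 2)) := by positivity
  rw [sub_zero]
  calc C * Real.exp (-(c * ‖y‖ ^ 2)) * |φ y| ≤ C * Real.exp (-(c * ‖y‖ ^ 2)) * ‖y‖ :=
        mul_le_mul_of_nonneg_left h1 h4
    _ = C * (‖y‖ * Real.exp (-(c * ‖y‖ ^ 2))) := by ring

include hk hb hc hC in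
lemma gen_bd {φ φ' : E n → ℝ} (h : Cc φ) (h' : Cc φ') {δ : ℝ}
    (hd : ∀ y, |φ y - φ' y| ≤ δ * ‖y‖) :
    ‖(∫ y : E n, ∫ t in (0 : ℝ)..φ y, k t y) - ∫ y : E n, ∫ t in (0 : ℝ)..φ' y, k t y‖ ≤
      (∫ y : E n, C * (‖y‖ * Real.exp (-(c * ‖y‖ ^ 2)))) * δ := by
  have hI := (int_mul_exp n hc).const_mul C
  have hII : Integrable (fun y : E n => C * (‖y‖ * Real.exp (-(c * ‖y‖ ^ 2))) * δ) :=
    hI.mul_const δ
  rw [← integral_sub (in_int hk hc hC hb h) (in_int hk hc hC hb h'), ← integral_mul_const]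
  apply norm_integral_le_of_norm_le hII
  filter_upwards with y
  have hiv : ∀ a b : ℝ, IntervalIntegrable (fun t => k t y) volume a b := by
    intro a b
    have : Continuous (fun t => k t y) :=
      hk.comp (continuous_id.prodMk continuous_const)
    exact this.intervalIntegrable a b
  rw [intervalIntegral.integral_interval_sub_left (hiv _ _) (hiv _ _)]
  refine (in_bd hb h h' y).trans ?_
  have h4 : 0 ≤ C * Real.exp (-(c * ‖y‖ ^ 2)) := by positivity
  calc C * Real.exp (-(c * ‖y‖ ^ 2)) * |φ y - φ' y|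
      ≤ C * Real.exp (-(c * ‖y‖ ^ 2)) * (δ * ‖y‖) :=
        mul_le_mul_of_nonneg_left (hd y) h4
    _ = C * (‖y‖ * Real.exp (-(c * ‖y‖ ^ 2))) * δ := by ring

end Gen

lemma gk_cont (p : E n) : Continuous (fun q : ℝ × E n => gk p q.1 q.2) := by
  unfold gk ww
  fun_prop

theorem ggLip (h2 : KerBound) : GGLip := by
  intro n ρ hρ
  obtain ⟨c, C, hc, hC, hb⟩ := h2 n ρ hρ
  refine ⟨∫ y : E n, C * (‖y‖ * Real.exp (-(c * ‖y‖ ^ 2))),
    integral_nonneg fun y => by positivity, ?_⟩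
  intro p hp φ φ' hφ hφ' δ hδ hd
  have hbk : ∀ (t : ℝ) (y : E n), |t| ≤ ‖y‖ → ‖gk p t y‖ ≤ C * Real.exp (-(c * ‖y‖ ^ 2)) :=
    fun t y hty => (hb p hp t y hty).2.2.2.1
  have e1 : GG p φ - GG p φ' = (∫ y : E n, ∫ t in (0 : ℝ)..φ y, gk p t y) -
      ∫ y : E n, ∫ t in (0 : ℝ)..φ' y, gk p t y := by
    unfold GG
    abel
  rw [e1]
  exact gen_bd (k := gk p) (gk_cont p) hc hC hbk hφ hφ' hd

theorem main (_h1 : BoostAlg) (h2 : KerBound) (_h3 : KerDeriv) : GGLip := ggLip h2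

end Pool.Agent.Q272.FC.GL
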