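import Pool.Agent.Q272.FC.BA

set_option autoImplicit false

open MeasureTheory

namespace Pool.Agent.Q272.FC.HE

open Pool.Agent.W716.FV (E gam gd UU)
open Pool.Agent.Q188.FC
open Pool.Agent.Q272.FC.BA

variable {n : ℕ}

lemma Cc_cont {φ : E n → ℝ} (h : Cc φ) : Continuous φ := by
  have : LipschitzWith 1 φ := by
    apply LipschitzWith.of_dist_le_mul
    intro x y
    rw [Real.dist_eq, dist_eq_norm]
    simpa using h.lip x y
  exact this.continuous

/-- the function whose zero is the value of the hat -/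
noncomputable def hh (p : E n) (φ : E n → ℝ) (z : E n) (t : ℝ) : ℝ :=
  lf p * (t + inner ℝ p z) - φ (NN p z + (lf p * t) • p)

lemma hh_slope {p : E n} (hp : ‖p‖ < 1) {φ : E n → ℝ} (h : Cc φ) (z : E n) {t t' : ℝ}
    (ht : t ≤ t') : lf p * (1 - ‖p‖) * (t' - t) ≤ hh p φ z t' - hh p φ z t := by
  have h2 := lf_pos hp
  have h3 := h.lip (NN p z + (lf p * t') • p) (NN p z + (lf p * t) • p)
  have h4 : NN p z + (lf p * t') • p - (NN p z + (lf p * t) • p) = (lf p * (t' - t)) • p := by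
    module
  rw [h4, norm_smul, Real.norm_eq_abs, abs_of_nonneg (mul_nonneg h2.le (sub_nonneg.2 ht))] at h3
  have h5 := le_abs_self (φ (NN p z + (lf p * t') • p) - φ (NN p z + (lf p * t) • p))
  unfold hh
  nlinarith

lemma hh_strict {p : E n} (hp : ‖p‖ < 1) {φ : E n → ℝ} (h : Cc φ) (z : E n) :
    StrictMono (hh p φ z) := by
  intro t t' ht
  have h1 := hh_slope hp h z ht.le
  have h2 := lf_pos hp
  have h3 : 0 < lf p * (1 - ‖p‖) * (t' - t) := by
    apply mul_pos (mul_pos h2 (by linarith)) (by linarith)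
  linarith

lemma hh_zero {p : E n} (hp : ‖p‖ < 1) {φ : E n → ℝ} (h : Cc φ) (z : E n) :
    ∃ t, hh p φ z t = 0 := by
  have h2 := lf_pos hp
  have hm : 0 < lf p * (1 - ‖p‖) := mul_pos h2 (by linarith)
  have hc : Continuous (hh p φ z) := by
    have := Cc_cont h
    unfold hh
    fun_prop
  have h0 := abs_nonneg (hh p φ z 0)
  have h3 := le_abs_self (hh p φ z 0)
  have h4 := neg_abs_le (hh p φ z 0)
  have hd : 0 ≤ |hh p φ z 0| / (lf p * (1 - ‖p‖)) := div_nonneg h0 hm.le
  have he : lf p * (1 - ‖p‖) * (|hh p φ z 0| / (lf p * (1 - ‖p‖))) = |hh p φ z 0| :=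
    mul_div_cancel₀ _ hm.ne'
  have := mem_range_of_exists_le_of_exists_ge (c := (0 : ℝ)) hc
    ⟨-(|hh p φ z 0| / (lf p * (1 - ‖p‖))), by
      have := hh_slope hp h z (t := -(|hh p φ z 0| / (lf p * (1 - ‖p‖)))) (t' := 0) (by linarith)
      nlinarith⟩
    ⟨|hh p φ z 0| / (lf p * (1 - ‖p‖)), by
      have := hh_slope hp h z (t := 0) (t' := |hh p φ z 0| / (lf p * (1 - ‖p‖))) hd
      nlinarith⟩
  exact this

lemma hh_hom {p : E n} {φ : E n → ℝ} (h : Cc φ) (z : E n) (c t : ℝ) :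
    hh p φ (c • z) (c * t) = c * hh p φ z t := by
  unfold hh
  have : NN p (c • z) + (lf p * (c * t)) • p = c • (NN p z + (lf p * t) • p) := by
    rw [NN_smul]
    module
  rw [this, h.hom, inner_smul_right]
  ring

lemma Lami_sub (p : E n) (a b : ℝ × E n) : Lami p (a - b) = Lami p a - Lami p b :=
  map_sub (LamiL p) a b

theorem hatEx : HatEx := by
  intro n p hp φ h
  choose ψ hψ using fun z => hh_zero hp h z
  refine ⟨ψ, ⟨?_, ?_⟩, ?_⟩
  · intro z z'
    have e1 : ∀ z, (Lami p (ψ z, z)).1 = φ (Lami p (ψ z, z)).2 := by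
      intro z
      have := hψ z
      unfold hh at this
      show lf p * (ψ z + inner ℝ p z) = φ (NN p z + (lf p * ψ z) • p)
      linarith
    have e2 := Lam_form hp (Lami p ((ψ z, z) - (ψ z', z')))
    rw [Lam_Lami hp] at e2
    rw [Lami_sub] at e2
    have e3 : |(Lami p (ψ z, z) - Lami p (ψ z', z')).1| ≤
        ‖(Lami p (ψ z, z) - Lami p (ψ z', z')).2‖ := by
      rw [Prod.fst_sub, Prod.snd_sub, e1, e1]
      exact h.lip _ _
    have e4 : (Lami p (ψ z, z) - Lami p (ψ z', z')).1 ^ 2 ≤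
        ‖(Lami p (ψ z, z) - Lami p (ψ z', z')).2‖ ^ 2 := by
      rw [← sq_abs]
      exact pow_le_pow_left₀ (abs_nonneg _) e3 2
    have e5 : (ψ z - ψ z') ^ 2 ≤ ‖z - z'‖ ^ 2 := by
      have e6 : ((ψ z, z) - (ψ z', z') : ℝ × E n).1 = ψ z - ψ z' := rfl
      have e7 : ((ψ z, z) - (ψ z', z') : ℝ × E n).2 = z - z' := rfl
      rw [e6, e7] at e2
      linarith
    exact abs_le_of_sq_le_sq e5 (norm_nonneg _)
  · intro c z
    apply (hh_strict hp h (c • z)).injective
    rw [hψ, hh_hom h, hψ, mul_zero]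
  · intro t z
    show t < ψ z ↔ lf p * (t + inner ℝ p z) < φ (NN p z + (lf p * t) • p)
    rw [← (hh_strict hp h z).lt_iff_lt, hψ]
    unfold hh
    constructor <;> intro h' <;> linarith

theorem main (_h1 : BoostAlg) : HatEx := hatEx

end Pool.Agent.Q272.FC.HE
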