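import Pool.Agent.Q272.FC.BA

set_option autoImplicit false

open MeasureTheory

namespace Pool.Agent.Q272.FC.HL

open Pool.Agent.W716.FV (E gam gd UU)
open Pool.Agent.Q188.FC
open Pool.Agent.Q272.FC.BA

variable {n : ℕ}

lemma Cc_inner {x : E n} (hx : ‖x‖ ≤ 1) : Cc (fun y : E n => (inner ℝ y x : ℝ)) := by
  constructor
  · intro y y'
    show |(inner ℝ y x : ℝ) - inner ℝ y' x| ≤ ‖y - y'‖
    rw [← inner_sub_left]
    refine (abs_real_inner_le_norm _ _).trans ?_
    have := norm_nonneg (y - y')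
    nlinarith [norm_nonneg x]
  · intro t y
    show (inner ℝ (t • y) x : ℝ) = t * inner ℝ y x
    rw [inner_smul_left]
    simp

lemma one_sub_inner_pos {p x : E n} (hp : ‖p‖ < 1) (hx : ‖x‖ ≤ 1) :
    0 < 1 - (inner ℝ p x : ℝ) := by
  have h1 := abs_real_inner_le_norm p x
  have h2 := le_abs_self (inner ℝ p x : ℝ)
  have h3 : ‖p‖ * ‖x‖ ≤ ‖p‖ * 1 := mul_le_mul_of_nonneg_left hx (norm_nonneg p)
  linarith

lemma hat_lin {p x : E n} (hp : ‖p‖ < 1) (hx : ‖x‖ ≤ 1) :
    IsHat p (fun y => inner ℝ y x)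
        (fun z => inner ℝ z ((lf p * (1 - inner ℝ p x))⁻¹ • NN p (x - p))) := by
  intro t z
  have h1 := one_sub_inner_pos hp hx
  have h2 := lf_pos hp
  have hc : 0 < lf p * (1 - inner ℝ p x) := mul_pos h2 h1
  show t < inner ℝ z ((lf p * (1 - inner ℝ p x))⁻¹ • NN p (x - p)) ↔
    lf p * (t + inner ℝ p z) < inner ℝ (NN p z + (lf p * t) • p) x
  rw [inner_smul_right, inner_add_left, inner_smul_left, NN_sub, inner_sub_right, NN_self hp,
    inner_smul_right, inner_NN_left z x, real_inner_comm p z, lt_inv_mul_iff₀ hc]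
  simp only [conj_trivial]
  constructor <;> intro h <;> nlinarith

lemma norm_hat {p x : E n} (hp : ‖p‖ < 1) (hx : ‖x‖ = 1) :
    ‖(lf p * (1 - inner ℝ p x))⁻¹ • NN p (x - p)‖ = 1 := by
  have h1 := one_sub_inner_pos hp hx.le
  have h2 := lf_pos hp
  have hc : 0 < lf p * (1 - inner ℝ p x) := mul_pos h2 h1
  have hs := lf_sq hp
  have h3 : ‖NN p (x - p)‖ ^ 2 = (lf p * (1 - inner ℝ p x)) ^ 2 := by
    rw [← real_inner_self_eq_norm_sq, inner_NN_NN hp, inner_sub_right p x p,
      real_inner_self_eq_norm_sq, real_inner_self_eq_norm_sq, @norm_sub_sq_real, hx,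
      real_inner_comm p x]
    linear_combination (-1 - ‖p‖ ^ 2 + 2 * inner ℝ p x) * hs
  have h4 : ‖NN p (x - p)‖ = lf p * (1 - inner ℝ p x) := by
    have := (sq_eq_sq₀ (norm_nonneg (NN p (x - p))) hc.le).1 h3
    exact this
  rw [norm_smul, h4, Real.norm_eq_abs, abs_of_pos (inv_pos.2 hc)]
  exact inv_mul_cancel₀ hc.ne'

theorem hatLin : HatLin := by
  intro n p hp
  have h2 := lf_pos hp
  have hs := lf_sq hp
  have hs1 := norm_sq_lt hp
  refine ⟨fun x hx => ⟨Cc_inner hx, hat_lin hp hx⟩, ?_, ?_, ?_, ?_, ?_, fun x hx => norm_hat hp hx⟩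
  · intro t z
    show t < -inner ℝ p z ↔ lf p * (t + inner ℝ p z) < 0
    constructor
    · intro h
      exact mul_neg_of_pos_of_neg h2 (by linarith)
    · intro h
      by_contra hc
      push Not at hc
      have : 0 ≤ lf p * (t + inner ℝ p z) := mul_nonneg h2.le (by linarith)
      linarith
  · intro t z
    show t < 0 ↔ lf p * (t + inner ℝ p z) < inner ℝ p (NN p z + (lf p * t) • p)
    rw [inner_add_right, inner_smul_right, real_inner_self_eq_norm_sq, inner_p_NN hp]
    constructor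
    · intro h
      have : lf p * t * (1 - ‖p‖ ^ 2) < 0 :=
        mul_neg_of_neg_of_pos (mul_neg_of_pos_of_neg h2 h) hs1
      nlinarith
    · intro h
      by_contra hc
      push Not at hc
      have : 0 ≤ lf p * t * (1 - ‖p‖ ^ 2) := mul_nonneg (mul_nonneg h2.le hc) hs1.le
      nlinarith
  · constructor
    · intro x y
      simp
    · intro t x
      simp
  · have h := Cc_inner (n := n) (x := -p) (by rw [norm_neg]; exact hp.le)
    have e : (fun z : E n => -(inner ℝ p z : ℝ)) = fun y : E n => (inner ℝ y (-p) : ℝ) := by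
      funext z
      rw [inner_neg_right, real_inner_comm]
    rw [e]
    exact h
  · have h := Cc_inner (n := n) (x := p) hp.le
    have e : (fun z : E n => (inner ℝ p z : ℝ)) = fun y : E n => (inner ℝ y p : ℝ) := by
      funext z
      rw [real_inner_comm]
    rw [e]
    exact h

theorem main (_h1 : BoostAlg) : HatLin := hatLin

end Pool.Agent.Q272.FC.HL
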