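import Pool.Agent.Q272.FC.BA

set_option autoImplicit false

open MeasureTheory

namespace Pool.Agent.Q272.FC.KB

open Pool.Agent.W716.FV (E gam gd UU)
open Pool.Agent.Q188.FC
open Pool.Agent.Q272.FC.BA

variable {n : ℕ}

lemma norm_NN_le {p : E n} (hp : ‖p‖ < 1) (v : E n) : ‖NN p v‖ ≤ lf p * ‖v‖ := by
  have h2 := lf_pos hp
  have hs := lf_sq hp
  apply le_of_sq_le_sq _ (by positivity)
  rw [← real_inner_self_eq_norm_sq, inner_NN_NN hp, real_inner_self_eq_norm_sq]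
  have h3 : (inner ℝ p v : ℝ) ^ 2 ≤ (‖p‖ * ‖v‖) ^ 2 := by
    rw [← sq_abs]
    exact pow_le_pow_left₀ (abs_nonneg _) (abs_real_inner_le_norm p v) 2
  have h4 : lf p ^ 2 * (inner ℝ p v : ℝ) ^ 2 ≤ lf p ^ 2 * (‖p‖ * ‖v‖) ^ 2 :=
    mul_le_mul_of_nonneg_left h3 (by positivity)
  nlinarith

lemma lf_mono {p : E n} {ρ : ℝ} (h0 : 0 ≤ ρ) (h1 : ρ < 1) (hp : ‖p‖ ≤ ρ) :
    lf p ≤ (√(1 - ρ ^ 2))⁻¹ := by
  unfold lf
  have h2 : 0 < 1 - ρ ^ 2 := by nlinarith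
  apply inv_anti₀ (Real.sqrt_pos.2 h2)
  apply Real.sqrt_le_sqrt
  have := norm_nonneg p
  nlinarith

lemma gd_le (z : E n) : gd n z ≤ Real.exp (-‖z‖ ^ 2 / 2) := by
  unfold gd
  have h1 : (√(2 * Real.pi))⁻¹ ^ n ≤ 1 := by
    apply pow_le_one₀ (by positivity)
    apply inv_le_one_of_one_le₀
    rw [show (1 : ℝ) = √1 by simp]
    apply Real.sqrt_le_sqrt
    have := Real.pi_gt_three
    linarith
  have := (Real.exp_pos (-‖z‖ ^ 2 / 2)).le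
  nlinarith

lemma gd_nonneg (z : E n) : 0 ≤ gd n z := by
  unfold gd
  positivity

lemma exp_bd (r : ℝ) (hr : 0 ≤ r) : (r ^ 3 + 3 * r) * Real.exp (-r ^ 2 / 2) ≤
    16 * Real.exp (-(r ^ 2 / 4)) := by
  have h1 : Real.exp (-r ^ 2 / 2) = Real.exp (-(r ^ 2 / 4)) * Real.exp (-(r ^ 2 / 4)) := by
    rw [← Real.exp_add]
    congr 1
    ring
  have h2 : 1 + r ^ 2 / 4 + (r ^ 2 / 4) ^ 2 / 2 ≤ Real.exp (r ^ 2 / 4) :=
    Real.quadratic_le_exp_of_nonneg (by positivity)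
  have h3 : (r ^ 3 + 3 * r) ≤ 16 * Real.exp (r ^ 2 / 4) := by
    have e1 : r ≤ 1 + r ^ 2 / 4 := by nlinarith [sq_nonneg (r / 2 - 1)]
    have e2 : r ^ 3 ≤ (r ^ 2 + r ^ 4) / 2 := by nlinarith [sq_nonneg (r * (r - 1)), sq_nonneg r]
    nlinarith [sq_nonneg r, sq_nonneg (r ^ 2)]
  have h4 : Real.exp (r ^ 2 / 4) * Real.exp (-(r ^ 2 / 4)) = 1 := by
    rw [← Real.exp_add]
    simp
  have h5 := Real.exp_pos (-(r ^ 2 / 4))
  rw [h1]
  calc (r ^ 3 + 3 * r) * (Real.exp (-(r ^ 2 / 4)) * Real.exp (-(r ^ 2 / 4)))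
      ≤ (16 * Real.exp (r ^ 2 / 4)) * (Real.exp (-(r ^ 2 / 4)) * Real.exp (-(r ^ 2 / 4))) := by
        apply mul_le_mul_of_nonneg_right h3
        positivity
    _ = 16 * (Real.exp (r ^ 2 / 4) * Real.exp (-(r ^ 2 / 4))) * Real.exp (-(r ^ 2 / 4)) := by ring
    _ = 16 * Real.exp (-(r ^ 2 / 4)) := by rw [h4, mul_one]

theorem kerBound : KerBound := by
  intro n ρ hρ
  set ρ' := max ρ 0 with hρ'
  have h0 : 0 ≤ ρ' := le_max_right _ _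
  have h1 : ρ' < 1 := max_lt hρ one_pos
  set Γ := (√(1 - ρ' ^ 2))⁻¹ with hΓ
  have hs : 0 < 1 - ρ' ^ 2 := by nlinarith
  have hΓ1 : 1 ≤ Γ := by
    apply (one_le_inv₀ (Real.sqrt_pos.2 hs)).2
    rw [show (1 : ℝ) = √1 by simp]
    apply Real.sqrt_le_sqrt
    rw [Real.sqrt_one]
    nlinarith [sq_nonneg ρ']
  have hΓ0 : 0 < Γ := by linarith
  refine ⟨1 / (16 * Γ ^ 2), 16 * Γ ^ 2, by positivity, by positivity, ?_⟩
  intro p hpρ t y hty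
  have hp : ‖p‖ < 1 := lt_of_le_of_lt hpρ hρ
  have hg : lf p ≤ Γ := lf_mono h0 h1 (hpρ.trans (le_max_left _ _))
  have hg0 := lf_pos hp
  have hg1 := lf_one_le hp
  obtain ⟨T, hT⟩ : ∃ T, T = (Lam p (t, y)).1 := ⟨_, rfl⟩
  obtain ⟨z, hz⟩ : ∃ z, z = (Lam p (t, y)).2 := ⟨_, rfl⟩
  have hform := Lam_form hp (t, y)
  have hgk := gk_eq hp t y
  rw [← hT, ← hz] at hform
  rw [← hz] at hgk
  simp only at hform
  have hty2 : t ^ 2 ≤ ‖y‖ ^ 2 := by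
    rw [← sq_abs]
    exact pow_le_pow_left₀ (abs_nonneg _) hty 2
  have hTz : |T| ≤ ‖z‖ := abs_le_of_sq_le_sq (by linarith) (norm_nonneg _)
  have hzy : ‖z‖ ≤ 2 * Γ * ‖y‖ := by
    have e : z = NN p y - (lf p * t) • p := hz
    rw [e]
    refine (norm_sub_le _ _).trans ?_
    have e1 := norm_NN_le hp y
    have e2 : ‖(lf p * t) • p‖ ≤ Γ * ‖y‖ := by
      rw [norm_smul, norm_mul, Real.norm_eq_abs, Real.norm_eq_abs, abs_of_pos hg0]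
      calc lf p * |t| * ‖p‖ ≤ lf p * |t| * 1 :=
            mul_le_mul_of_nonneg_left hp.le (by positivity)
        _ = lf p * |t| := mul_one _
        _ ≤ Γ * ‖y‖ := mul_le_mul hg hty (abs_nonneg _) hΓ0.le
    have e3 : lf p * ‖y‖ ≤ Γ * ‖y‖ := mul_le_mul_of_nonneg_right hg (norm_nonneg _)
    linarith
  have hyz : ‖y‖ ≤ 2 * Γ * ‖z‖ := by
    have e : y = NN p z + (lf p * T) • p := by
      have := congrArg Prod.snd (Lami_Lam hp (t, y))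
      rw [hz, hT]
      exact this.symm
    rw [e]
    refine (norm_add_le _ _).trans ?_
    have e1 := norm_NN_le hp z
    have e2 : ‖(lf p * T) • p‖ ≤ Γ * ‖z‖ := by
      rw [norm_smul, norm_mul, Real.norm_eq_abs, Real.norm_eq_abs, abs_of_pos hg0]
      calc lf p * |T| * ‖p‖ ≤ lf p * |T| * 1 :=
            mul_le_mul_of_nonneg_left hp.le (by positivity)
        _ = lf p * |T| := mul_one _
        _ ≤ Γ * ‖z‖ := mul_le_mul hg hTz (abs_nonneg _) hΓ0.le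
    have e3 : lf p * ‖z‖ ≤ Γ * ‖z‖ := mul_le_mul_of_nonneg_right hg (norm_nonneg _)
    linarith
  have hexp : Real.exp (-(‖z‖ ^ 2 / 4)) ≤ Real.exp (-(1 / (16 * Γ ^ 2) * ‖y‖ ^ 2)) := by
    apply Real.exp_le_exp.2
    apply neg_le_neg
    have e1 : ‖y‖ ^ 2 ≤ (2 * Γ * ‖z‖) ^ 2 := pow_le_pow_left₀ (norm_nonneg _) hyz 2
    rw [div_mul_eq_mul_div, one_mul, div_le_iff₀ (by positivity)]
    nlinarith
  have hbd := exp_bd ‖z‖ (norm_nonneg _)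
  have hgd := gd_le z
  have hgd0 := gd_nonneg z
  have hzn := norm_nonneg z
  have hpoly : gd n z * (‖z‖ ^ 3 + 3 * ‖z‖) ≤ 16 * Real.exp (-(1 / (16 * Γ ^ 2) * ‖y‖ ^ 2)) := by
    calc gd n z * (‖z‖ ^ 3 + 3 * ‖z‖) ≤ Real.exp (-‖z‖ ^ 2 / 2) * (‖z‖ ^ 3 + 3 * ‖z‖) := by
          apply mul_le_mul_of_nonneg_right hgd (by positivity)
      _ = (‖z‖ ^ 3 + 3 * ‖z‖) * Real.exp (-‖z‖ ^ 2 / 2) := mul_comm _ _
      _ ≤ 16 * Real.exp (-(‖z‖ ^ 2 / 4)) := hbd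
      _ ≤ _ := by linarith
  have hΓ2 : 1 ≤ Γ ^ 2 := by nlinarith
  refine ⟨by rw [← hT, ← hz]; exact hTz, ?_, ?_, ?_, ?_⟩
  · rw [← hz, div_mul_eq_mul_div, one_mul, div_le_iff₀ (by positivity)]
    have : 2 * Γ * ‖z‖ ≤ ‖z‖ * (16 * Γ ^ 2) := by
      have : 2 * Γ ≤ 16 * Γ ^ 2 := by nlinarith
      nlinarith
    linarith
  · rw [← hz]
    have : 2 * Γ ≤ 16 * Γ ^ 2 := by nlinarith
    have hy := norm_nonneg y
    nlinarith
  · rw [hgk, norm_smul, Real.norm_eq_abs, abs_of_pos (inv_pos.2 hg0)]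
    have e1 := norm_NN_le hp (gd n z • z)
    rw [norm_smul, Real.norm_eq_abs, abs_of_nonneg hgd0] at e1
    calc (lf p)⁻¹ * ‖NN p (gd n z • z)‖ ≤ (lf p)⁻¹ * (lf p * (gd n z * ‖z‖)) := by
          apply mul_le_mul_of_nonneg_left e1 (inv_pos.2 hg0).le
      _ = gd n z * ‖z‖ := by rw [← mul_assoc, inv_mul_cancel₀ hg0.ne', one_mul]
      _ ≤ gd n z * (‖z‖ ^ 3 + 3 * ‖z‖) := by
          apply mul_le_mul_of_nonneg_left _ hgd0
          have : 0 ≤ ‖z‖ ^ 3 := by positivity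
          linarith
      _ ≤ 16 * Real.exp (-(1 / (16 * Γ ^ 2) * ‖y‖ ^ 2)) := hpoly
      _ ≤ 16 * Γ ^ 2 * Real.exp (-(1 / (16 * Γ ^ 2) * ‖y‖ ^ 2)) := by
          apply mul_le_mul_of_nonneg_right _ (Real.exp_pos _).le
          linarith
  · intro a a'
    have e : dk p a a' (Lam p (t, y)) = gd n z * (T * (inner ℝ (NN p a) z * inner ℝ (NN p a') z
        - inner ℝ (NN p a) (NN p a')) +
        lf p * (inner ℝ p a' * inner ℝ (NN p a) z - inner ℝ p a * inner ℝ (NN p a') z)) := by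
      unfold dk
      rw [← hT, ← hz]
    rw [e, abs_mul, abs_of_nonneg hgd0]
    have ha : ‖NN p a‖ ≤ Γ * ‖a‖ := (norm_NN_le hp a).trans
      (mul_le_mul_of_nonneg_right hg (norm_nonneg _))
    have ha' : ‖NN p a'‖ ≤ Γ * ‖a'‖ := (norm_NN_le hp a').trans
      (mul_le_mul_of_nonneg_right hg (norm_nonneg _))
    have hna := norm_nonneg a
    have hna' := norm_nonneg a'
    have b1 : |(inner ℝ (NN p a) z : ℝ)| ≤ Γ * ‖a‖ * ‖z‖ := (abs_real_inner_le_norm _ _).trans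
      (mul_le_mul_of_nonneg_right ha (norm_nonneg _))
    have b2 : |(inner ℝ (NN p a') z : ℝ)| ≤ Γ * ‖a'‖ * ‖z‖ := (abs_real_inner_le_norm _ _).trans
      (mul_le_mul_of_nonneg_right ha' (norm_nonneg _))
    have b3 : |(inner ℝ (NN p a) (NN p a') : ℝ)| ≤ Γ * ‖a‖ * (Γ * ‖a'‖) :=
      (abs_real_inner_le_norm _ _).trans (mul_le_mul ha ha' (norm_nonneg _) (by positivity))
    have b4 : |(inner ℝ p a : ℝ)| ≤ ‖a‖ := by
      refine (abs_real_inner_le_norm _ _).trans ?_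
      nlinarith
    have b5 : |(inner ℝ p a' : ℝ)| ≤ ‖a'‖ := by
      refine (abs_real_inner_le_norm _ _).trans ?_
      nlinarith
    have c1 : |T * (inner ℝ (NN p a) z * inner ℝ (NN p a') z - inner ℝ (NN p a) (NN p a'))| ≤
        ‖z‖ * ((Γ * ‖a‖ * ‖z‖) * (Γ * ‖a'‖ * ‖z‖) + Γ * ‖a‖ * (Γ * ‖a'‖)) := by
      rw [abs_mul]
      apply mul_le_mul hTz _ (abs_nonneg _) (norm_nonneg _)
      refine (abs_sub _ _).trans ?_
      apply add_le_add _ b3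
      rw [abs_mul]
      exact mul_le_mul b1 b2 (abs_nonneg _) (by positivity)
    have c2 : |lf p * (inner ℝ p a' * inner ℝ (NN p a) z - inner ℝ p a * inner ℝ (NN p a') z)| ≤
        Γ * (‖a'‖ * (Γ * ‖a‖ * ‖z‖) + ‖a‖ * (Γ * ‖a'‖ * ‖z‖)) := by
      rw [abs_mul, abs_of_pos hg0]
      apply mul_le_mul hg _ (abs_nonneg _) hΓ0.le
      refine (abs_sub _ _).trans ?_
      rw [abs_mul, abs_mul]
      apply add_le_add
      · exact mul_le_mul b5 b1 (abs_nonneg _) hna'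
      · exact mul_le_mul b4 b2 (abs_nonneg _) hna
    calc gd n z * |T * (inner ℝ (NN p a) z * inner ℝ (NN p a') z - inner ℝ (NN p a) (NN p a')) +
          lf p * (inner ℝ p a' * inner ℝ (NN p a) z - inner ℝ p a * inner ℝ (NN p a') z)|
        ≤ gd n z * (‖z‖ * ((Γ * ‖a‖ * ‖z‖) * (Γ * ‖a'‖ * ‖z‖) + Γ * ‖a‖ * (Γ * ‖a'‖)) +
          Γ * (‖a'‖ * (Γ * ‖a‖ * ‖z‖) + ‖a‖ * (Γ * ‖a'‖ * ‖z‖))) := by
          apply mul_le_mul_of_nonneg_left _ hgd0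
          exact (abs_add_le _ _).trans (add_le_add c1 c2)
      _ = (gd n z * (‖z‖ ^ 3 + 3 * ‖z‖)) * (Γ ^ 2 * ‖a‖ * ‖a'‖) := by ring
      _ ≤ (16 * Real.exp (-(1 / (16 * Γ ^ 2) * ‖y‖ ^ 2))) * (Γ ^ 2 * ‖a‖ * ‖a'‖) := by
          apply mul_le_mul_of_nonneg_right hpoly (by positivity)
      _ = 16 * Γ ^ 2 * Real.exp (-(1 / (16 * Γ ^ 2) * ‖y‖ ^ 2)) * ‖a‖ * ‖a'‖ := by ring

theorem main (_h1 : BoostAlg) : KerBound := kerBound

end Pool.Agent.Q272.FC.KB
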