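import Pool.Agent.Q272.FC.BA

set_option autoImplicit false

open MeasureTheory

namespace Pool.Agent.Q272.FC.KD

open Pool.Agent.W716.FV (E gam gd UU)
open Pool.Agent.Q188.FC
open Pool.Agent.Q272.FC.BA

variable {n : ℕ}

lemma lf_cd {p : E n} (hp : ‖p‖ < 1) : ContDiffAt ℝ 2 (lf : E n → ℝ) p := by
  have h := norm_sq_lt hp
  have h1 : ContDiffAt ℝ 2 (fun p : E n => 1 - ‖p‖ ^ 2) p := by
    apply ContDiffAt.sub contDiffAt_const
    exact (contDiff_norm_sq ℝ).contDiffAt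
  have h2 : ContDiffAt ℝ 2 (fun p : E n => √(1 - ‖p‖ ^ 2)) p := h1.sqrt h.ne'
  exact h2.inv (Real.sqrt_pos.2 h).ne'

lemma ww_cd {q : E n × ℝ × E n} (hq : ‖q.1‖ < 1) :
    ContDiffAt ℝ 2 (fun q : E n × ℝ × E n => ww q.1 q.2.1 q.2.2) q := by
  unfold ww
  have h1 : ContDiffAt ℝ 2 (fun q : E n × ℝ × E n => lf q.1) q :=
    ContDiffAt.comp (g := (lf : E n → ℝ)) (f := fun q : E n × ℝ × E n => q.1) q (lf_cd hq)
      contDiffAt_fst
  have h2 : ContDiffAt ℝ 2 (fun q : E n × ℝ × E n => q.2.1) q :=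
    contDiffAt_fst.comp q contDiffAt_snd
  have h3 : ContDiffAt ℝ 2 (fun q : E n × ℝ × E n => q.2.2) q :=
    contDiffAt_snd.comp q contDiffAt_snd
  have h4 : ContDiffAt ℝ 2 (fun q : E n × ℝ × E n => (inner ℝ q.1 q.2.2 : ℝ)) q :=
    contDiffAt_fst.inner ℝ h3
  have h5 : ContDiffAt ℝ 2 (fun q : E n × ℝ × E n => ‖q.2.2‖ ^ 2) q := h3.norm_sq ℝ
  exact (h5.sub (h2.pow 2)).add ((h1.pow 2).mul ((h2.sub h4).pow 2))

lemma gk_cd {q : E n × ℝ × E n} (hq : ‖q.1‖ < 1) :
    ContDiffAt ℝ 2 (fun q : E n × ℝ × E n => gk q.1 q.2.1 q.2.2) q := by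
  unfold gk
  have h1 : ContDiffAt ℝ 2 (fun q : E n × ℝ × E n => lf q.1) q :=
    ContDiffAt.comp (g := (lf : E n → ℝ)) (f := fun q : E n × ℝ × E n => q.1) q (lf_cd hq)
      contDiffAt_fst
  have h2 : ContDiffAt ℝ 2 (fun q : E n × ℝ × E n => q.2.1) q :=
    contDiffAt_fst.comp q contDiffAt_snd
  have h3 : ContDiffAt ℝ 2 (fun q : E n × ℝ × E n => q.2.2) q :=
    contDiffAt_snd.comp q contDiffAt_snd
  have h4 : ContDiffAt ℝ 2 (fun q : E n × ℝ × E n => (inner ℝ q.1 q.2.2 : ℝ)) q :=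
    contDiffAt_fst.inner ℝ h3
  have h6 := ww_cd hq
  have h7 : ContDiffAt ℝ 2 (fun q : E n × ℝ × E n => Real.exp (-ww q.1 q.2.1 q.2.2 / 2)) q :=
    (h6.neg.div_const 2).exp
  exact ((contDiffAt_const.mul (h1.inv (lf_pos hq).ne')).mul h7).smul
    (h3.sub (((h1.pow 2).mul (h2.sub h4)).smul contDiffAt_fst))

lemma lf_hd {p : E n} (hp : ‖p‖ < 1) (a : E n) :
    HasDerivAt (fun s : ℝ => lf (p + s • a)) (lf p ^ 3 * inner ℝ p a) 0 := by
  have h := norm_sq_lt hp
  have h1 : HasDerivAt (fun s : ℝ => p + s • a) a 0 := by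
    simpa using ((hasDerivAt_id (0 : ℝ)).smul_const a).const_add p
  have h2 : HasDerivAt (fun s : ℝ => ‖p + s • a‖ ^ 2) (2 * inner ℝ p a) 0 := by
    have := h1.norm_sq
    simpa using this
  have h3 : HasDerivAt (fun s : ℝ => 1 - ‖p + s • a‖ ^ 2) (-(2 * inner ℝ p a)) 0 := by
    simpa using h2.const_sub 1
  have e0 : (1 - ‖p + (0 : ℝ) • a‖ ^ 2) = 1 - ‖p‖ ^ 2 := by simp
  have h4 : HasDerivAt (fun s : ℝ => √(1 - ‖p + s • a‖ ^ 2))
      (-(2 * inner ℝ p a) / (2 * √(1 - ‖p‖ ^ 2))) 0 := by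
    have := h3.sqrt (by rw [e0]; exact h.ne')
    rw [e0] at this
    exact this
  have hr := Real.sqrt_pos.2 h
  have h5 := h4.inv (by rw [e0]; exact hr.ne')
  rw [e0] at h5
  refine h5.congr_deriv ?_
  unfold lf
  field_simp

lemma main_deriv {p : E n} (hp : ‖p‖ < 1) (t : ℝ) (y a a' : E n) :
    HasDerivAt (fun s : ℝ => (inner ℝ (gk (p + s • a) t y) a' : ℝ))
      (dk p a a' (Lam p (t, y))) 0 := by
  have hg := lf_pos hp
  have hsq := lf_sq hp
  have h1 : HasDerivAt (fun s : ℝ => p + s • a) a 0 := by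
    simpa using ((hasDerivAt_id (0 : ℝ)).smul_const a).const_add p
  have hl := lf_hd hp a
  have e0 : p + (0 : ℝ) • a = p := by simp
  have hu : HasDerivAt (fun s : ℝ => (inner ℝ (p + s • a) y : ℝ)) (inner ℝ a y) 0 := by
    have := h1.inner ℝ (hasDerivAt_const (0 : ℝ) y)
    simpa using this
  have hv : HasDerivAt (fun s : ℝ => (inner ℝ (p + s • a) a' : ℝ)) (inner ℝ a a') 0 := by
    have := h1.inner ℝ (hasDerivAt_const (0 : ℝ) a')
    simpa using this
  have htu : HasDerivAt (fun s : ℝ => t - (inner ℝ (p + s • a) y : ℝ)) (-inner ℝ a y) 0 := by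
    simpa using hu.const_sub t
  have hl2 := hl.pow 2
  have hW : HasDerivAt (fun s : ℝ => ww (p + s • a) t y) _ 0 :=
    (hl2.mul (htu.pow 2)).const_add (‖y‖ ^ 2 - t ^ 2)
  have hE := (hW.neg.div_const 2).exp
  have hI := hl.inv (by rw [e0]; exact hg.ne')
  have hA := ((hI.const_mul ((√(2 * Real.pi))⁻¹ ^ n)).mul hE)
  have hB := ((hl2.mul htu).mul hv).const_sub (inner ℝ y a' : ℝ)
  have hC := hA.mul hB
  have hfun : (fun s : ℝ => (inner ℝ (gk (p + s • a) t y) a' : ℝ)) =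
      fun s => ((√(2 * Real.pi))⁻¹ ^ n * (lf (p + s • a))⁻¹ * Real.exp (-ww (p + s • a) t y / 2)) *
        (inner ℝ y a' - lf (p + s • a) ^ 2 * (t - inner ℝ (p + s • a) y) *
          inner ℝ (p + s • a) a') := by
    funext s
    unfold gk
    rw [inner_smul_left, inner_sub_left, inner_smul_left]
    simp only [conj_trivial]
  rw [hfun]
  refine HasDerivAt.congr_deriv hC ?_
  simp only [Pi.mul_apply, Pi.pow_apply, Pi.inv_apply, Pi.neg_apply, e0]
  have c1 : (Lam p (t, y)).1 = lf p * (t - inner ℝ p y) := rfl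
  have c2 : (Lam p (t, y)).2 = NN p y - (lf p * t) • p := rfl
  have i1 : (inner ℝ (NN p a) (NN p y - (lf p * t) • p) : ℝ) =
      inner ℝ a y - lf p ^ 2 * inner ℝ p a * (t - inner ℝ p y) := by
    rw [inner_sub_right, inner_smul_right, inner_NN_NN hp, real_inner_comm p (NN p a),
      inner_p_NN hp]
    ring
  have i2 : (inner ℝ (NN p a') (NN p y - (lf p * t) • p) : ℝ) =
      inner ℝ y a' - lf p ^ 2 * inner ℝ p a' * (t - inner ℝ p y) := by
    rw [inner_sub_right, inner_smul_right, inner_NN_NN hp, real_inner_comm p (NN p a'),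
      inner_p_NN hp, real_inner_comm y a']
    ring
  have i3 := inner_NN_NN hp a a'
  unfold dk gd
  rw [c1, i3, ← ww_eq hp, c2, i1, i2]
  generalize (inner ℝ p a : ℝ) = β at *
  generalize (inner ℝ p a' : ℝ) = β' at *
  generalize (inner ℝ p y : ℝ) = w at *
  generalize (inner ℝ a y : ℝ) = A at *
  generalize (inner ℝ y a' : ℝ) = A' at *
  generalize (inner ℝ a a' : ℝ) = I at *
  generalize Real.exp (-ww p t y / 2) = X at *
  generalize (√(2 * Real.pi))⁻¹ ^ n = K at *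
  clear hl hu hv htu hl2 hW hE hI hA hB hC hfun h1 i1 i2 i3 c1 c2
  generalize lf p = g at *
  field_simp
  ring

theorem kerDeriv : KerDeriv := by
  intro n
  refine ⟨fun q hq => (gk_cd hq).contDiffWithinAt, ?_⟩
  intro p hp t y a a'
  have hd : DifferentiableAt ℝ (fun p' => gk p' t y) p := by
    have h := gk_cd (n := n) (q := (p, t, y)) hp
    have h2 : ContDiffAt ℝ 2 (fun p' : E n => ((p', t, y) : E n × ℝ × E n)) p := by
      fun_prop
    have h3 : ContDiffAt ℝ 2 (fun p' : E n => gk p' t y) p :=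
      ContDiffAt.comp (g := fun q : E n × ℝ × E n => gk q.1 q.2.1 q.2.2)
        (f := fun p' : E n => ((p', t, y) : E n × ℝ × E n)) p h h2
    exact h3.differentiableAt (by norm_num)
  have h1 : HasDerivAt (fun s : ℝ => p + s • a) a 0 := by
    simpa using ((hasDerivAt_id (0 : ℝ)).smul_const a).const_add p
  have e0 : p + (0 : ℝ) • a = p := by simp
  have hd' : HasFDerivAt (fun p' => gk p' t y) (fderiv ℝ (fun p' => gk p' t y) p)
      (p + (0 : ℝ) • a) := by
    rw [e0]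
    exact hd.hasFDerivAt
  have h2 : HasDerivAt (fun s : ℝ => gk (p + s • a) t y)
      (fderiv ℝ (fun p' => gk p' t y) p a) 0 :=
    HasFDerivAt.comp_hasDerivAt (l := fun p' => gk p' t y) (f := fun s : ℝ => p + s • a) 0 hd' h1
  have h3 : HasDerivAt (fun s : ℝ => (inner ℝ (gk (p + s • a) t y) a' : ℝ))
      (inner ℝ (fderiv ℝ (fun p' => gk p' t y) p a) a') 0 := by
    have := h2.inner ℝ (hasDerivAt_const (0 : ℝ) a')
    simpa using this
  exact h3.unique (main_deriv hp t y a a')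

theorem main (_h1 : BoostAlg) : KerDeriv := kerDeriv

end Pool.Agent.Q272.FC.KD
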