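import Pool.Agent.Q272.FC.HL
import Pool.Agent.Q272.FC.KB
import Pool.Agent.Q188.FC.StmC

set_option autoImplicit false
set_option maxHeartbeats 400000

open MeasureTheory

namespace Pool.Agent.Q272.FC.RM

open Pool.Agent.W716.FV (E gam gd UU)
open Pool.Agent.Q188.FC
open Pool.Agent.Q272.FC.BA

variable {n : ℕ}

/-- `‖v‖/(‖v‖+⟨p,v⟩)` -/
noncomputable def aa (p v : E n) : ℝ := ‖v‖ / (‖v‖ + inner ℝ p v)

lemma den_ge {p : E n} (v : E n) : (1 - ‖p‖) * ‖v‖ ≤ ‖v‖ + inner ℝ p v := by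
  have h1 := abs_real_inner_le_norm p v
  have h2 := neg_abs_le (inner ℝ p v : ℝ)
  linarith

lemma den_pos {p : E n} (hp : ‖p‖ < 1) {v : E n} (hv : v ≠ 0) :
    0 < ‖v‖ + (inner ℝ p v : ℝ) := by
  have h1 := den_ge (p := p) v
  have h2 : 0 < ‖v‖ := norm_pos_iff.2 hv
  have h3 : 0 < (1 - ‖p‖) * ‖v‖ := mul_pos (by linarith) h2
  linarith

lemma aa_zero (p : E n) : aa p 0 = 0 := by
  unfold aa
  simp

lemma aa_nonneg {p : E n} (hp : ‖p‖ < 1) (v : E n) : 0 ≤ aa p v := by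
  by_cases hv : v = 0
  · rw [hv, aa_zero]
  · exact div_nonneg (norm_nonneg _) (den_pos hp hv).le

lemma aa_le {p : E n} (hp : ‖p‖ < 1) (v : E n) : aa p v ≤ 1 / (1 - ‖p‖) := by
  have h0 : 0 < 1 - ‖p‖ := by linarith
  by_cases hv : v = 0
  · rw [hv, aa_zero]
    positivity
  · unfold aa
    rw [div_le_div_iff₀ (den_pos hp hv) h0]
    have := den_ge (p := p) v
    linarith

/-- the key Lipschitz estimate -/
lemma aa_sub {p : E n} (hp : ‖p‖ < 1) (v w : E n) (hv : v ≠ 0) (hw : w ≠ 0) :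
    |aa p v - aa p w| * ‖w‖ ≤ 2 / (1 - ‖p‖) ^ 2 * ‖v - w‖ := by
  have h0 : 0 < 1 - ‖p‖ := by linarith
  have hv' : 0 < ‖v‖ := norm_pos_iff.2 hv
  have hw' : 0 < ‖w‖ := norm_pos_iff.2 hw
  have dv := den_pos hp hv
  have dw := den_pos hp hw
  have gv := den_ge (p := p) v
  have gw := den_ge (p := p) w
  have e1 : aa p v - aa p w = (‖v‖ * inner ℝ p w - ‖w‖ * inner ℝ p v) /
      ((‖v‖ + inner ℝ p v) * (‖w‖ + inner ℝ p w)) := by
    unfold aa
    rw [div_sub_div _ _ dv.ne' dw.ne']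
    congr 1
    ring
  have e2 : |‖v‖ * inner ℝ p w - ‖w‖ * inner ℝ p v| ≤ 2 * ‖v‖ * ‖v - w‖ := by
    have e3 : ‖v‖ * inner ℝ p w - ‖w‖ * inner ℝ p v =
        (‖v‖ - ‖w‖) * inner ℝ p v - ‖v‖ * inner ℝ p (v - w) := by
      rw [inner_sub_right]
      ring
    rw [e3]
    refine (abs_sub _ _).trans ?_
    rw [abs_mul, abs_mul, abs_of_pos hv']
    have e4 : |‖v‖ - ‖w‖| ≤ ‖v - w‖ := abs_norm_sub_norm_le v w
    have e5 : |(inner ℝ p v : ℝ)| ≤ ‖v‖ := by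
      refine (abs_real_inner_le_norm _ _).trans ?_
      nlinarith
    have e6 : |(inner ℝ p (v - w) : ℝ)| ≤ ‖v - w‖ := by
      refine (abs_real_inner_le_norm _ _).trans ?_
      nlinarith [norm_nonneg (v - w)]
    have e7 : |‖v‖ - ‖w‖| * |(inner ℝ p v : ℝ)| ≤ ‖v - w‖ * ‖v‖ :=
      mul_le_mul e4 e5 (abs_nonneg _) (norm_nonneg _)
    have e8 : ‖v‖ * |(inner ℝ p (v - w) : ℝ)| ≤ ‖v‖ * ‖v - w‖ :=
      mul_le_mul_of_nonneg_left e6 hv'.le
    linarith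
  rw [e1, abs_div, abs_of_pos (mul_pos dv dw), div_mul_eq_mul_div, div_le_iff₀ (mul_pos dv dw)]
  have e9 : (1 - ‖p‖) ^ 2 * (‖v‖ * ‖w‖) ≤ (‖v‖ + inner ℝ p v) * (‖w‖ + inner ℝ p w) := by
    have := mul_le_mul gv gw (by positivity) dv.le
    nlinarith
  calc |‖v‖ * inner ℝ p w - ‖w‖ * inner ℝ p v| * ‖w‖ ≤ (2 * ‖v‖ * ‖v - w‖) * ‖w‖ :=
        mul_le_mul_of_nonneg_right e2 hw'.le
    _ = 2 / (1 - ‖p‖) ^ 2 * ‖v - w‖ * ((1 - ‖p‖) ^ 2 * (‖v‖ * ‖w‖)) := by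
        field_simp
    _ ≤ 2 / (1 - ‖p‖) ^ 2 * ‖v - w‖ * ((‖v‖ + inner ℝ p v) * (‖w‖ + inner ℝ p w)) := by
        apply mul_le_mul_of_nonneg_left e9
        positivity

/-- the Lipschitz constant -/
noncomputable def LL (p : E n) : ℝ := 1 / (1 - ‖p‖) + 2 / (1 - ‖p‖) ^ 2

lemma lip1 {p : E n} (hp : ‖p‖ < 1) (v w : E n) :
    ‖aa p v • v - aa p w • w‖ ≤ LL p * ‖v - w‖ := by
  have h0 : 0 < 1 - ‖p‖ := by linarith
  have hL : 1 / (1 - ‖p‖) ≤ LL p := by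
    unfold LL
    have : 0 ≤ 2 / (1 - ‖p‖) ^ 2 := by positivity
    linarith
  by_cases hv : v = 0
  · rw [hv, smul_zero, zero_sub, zero_sub, norm_neg, norm_neg, norm_smul, Real.norm_eq_abs,
      abs_of_nonneg (aa_nonneg hp w)]
    exact mul_le_mul_of_nonneg_right ((aa_le hp w).trans hL) (norm_nonneg _)
  by_cases hw : w = 0
  · rw [hw, smul_zero, sub_zero, sub_zero, norm_smul, Real.norm_eq_abs,
      abs_of_nonneg (aa_nonneg hp v)]
    exact mul_le_mul_of_nonneg_right ((aa_le hp v).trans hL) (norm_nonneg _)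
  have e : aa p v • v - aa p w • w = aa p v • (v - w) + (aa p v - aa p w) • w := by
    module
  rw [e]
  refine (norm_add_le _ _).trans ?_
  rw [norm_smul, norm_smul, Real.norm_eq_abs, Real.norm_eq_abs, abs_of_nonneg (aa_nonneg hp v)]
  have e1 := aa_sub hp v w hv hw
  have e2 : aa p v * ‖v - w‖ ≤ 1 / (1 - ‖p‖) * ‖v - w‖ :=
    mul_le_mul_of_nonneg_right (aa_le hp v) (norm_nonneg _)
  unfold LL
  rw [add_mul]
  linarith

lemma lip2 {p : E n} (hp : ‖p‖ < 1) (v w : E n) :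
    |aa p v * ‖v‖ - aa p w * ‖w‖| ≤ LL p * ‖v - w‖ := by
  have h0 : 0 < 1 - ‖p‖ := by linarith
  have hL : 1 / (1 - ‖p‖) ≤ LL p := by
    unfold LL
    have : 0 ≤ 2 / (1 - ‖p‖) ^ 2 := by positivity
    linarith
  by_cases hv : v = 0
  · rw [hv, norm_zero, mul_zero, zero_sub, zero_sub, norm_neg, abs_neg,
      abs_of_nonneg (mul_nonneg (aa_nonneg hp w) (norm_nonneg _))]
    exact mul_le_mul_of_nonneg_right ((aa_le hp w).trans hL) (norm_nonneg _)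
  by_cases hw : w = 0
  · rw [hw, norm_zero, mul_zero, sub_zero, sub_zero,
      abs_of_nonneg (mul_nonneg (aa_nonneg hp v) (norm_nonneg _))]
    exact mul_le_mul_of_nonneg_right ((aa_le hp v).trans hL) (norm_nonneg _)
  have e : aa p v * ‖v‖ - aa p w * ‖w‖ = aa p v * (‖v‖ - ‖w‖) + (aa p v - aa p w) * ‖w‖ := by
    ring
  rw [e]
  refine (abs_add_le _ _).trans ?_
  rw [abs_mul, abs_mul, abs_of_nonneg (aa_nonneg hp v), abs_of_nonneg (norm_nonneg w)]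
  have e1 := aa_sub hp v w hv hw
  have e3 : |‖v‖ - ‖w‖| ≤ ‖v - w‖ := abs_norm_sub_norm_le v w
  have e2 : aa p v * |‖v‖ - ‖w‖| ≤ 1 / (1 - ‖p‖) * ‖v - w‖ :=
    mul_le_mul (aa_le hp v) e3 (abs_nonneg _) (by positivity)
  unfold LL
  rw [add_mul]
  linarith

/-- the map -/
noncomputable def R (p v : E n) : E n :=
  (lf p)⁻¹ • NN p (aa p v • v + (aa p v * ‖v‖) • p)

lemma LL_nonneg {p : E n} (hp : ‖p‖ < 1) : 0 ≤ LL p := by
  have h0 : 0 < 1 - ‖p‖ := by linarith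
  unfold LL
  positivity

lemma R_lip {p : E n} (hp : ‖p‖ < 1) (v w : E n) : ‖R p v - R p w‖ ≤ 2 * LL p * ‖v - w‖ := by
  have hg := lf_pos hp
  have e : R p v - R p w = (lf p)⁻¹ • NN p ((aa p v • v - aa p w • w) +
      (aa p v * ‖v‖ - aa p w * ‖w‖) • p) := by
    unfold R
    rw [← smul_sub, ← NN_sub]
    congr 2
    module
  rw [e, norm_smul, Real.norm_eq_abs, abs_of_pos (inv_pos.2 hg)]
  have h1 := KB.norm_NN_le hp ((aa p v • v - aa p w • w) + (aa p v * ‖v‖ - aa p w * ‖w‖) • p)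
  have h2 : ‖(aa p v • v - aa p w • w) + (aa p v * ‖v‖ - aa p w * ‖w‖) • p‖ ≤
      2 * LL p * ‖v - w‖ := by
    refine (norm_add_le _ _).trans ?_
    rw [norm_smul, Real.norm_eq_abs]
    have e1 := lip1 hp v w
    have e2 := lip2 hp v w
    have e3 : |aa p v * ‖v‖ - aa p w * ‖w‖| * ‖p‖ ≤ |aa p v * ‖v‖ - aa p w * ‖w‖| * 1 :=
      mul_le_mul_of_nonneg_left hp.le (abs_nonneg _)
    linarith
  calc (lf p)⁻¹ * ‖NN p ((aa p v • v - aa p w • w) + (aa p v * ‖v‖ - aa p w * ‖w‖) • p)‖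
      ≤ (lf p)⁻¹ * (lf p * (2 * LL p * ‖v - w‖)) := by
        apply mul_le_mul_of_nonneg_left _ (inv_pos.2 hg).le
        exact h1.trans (mul_le_mul_of_nonneg_left h2 hg.le)
    _ = 2 * LL p * ‖v - w‖ := by rw [← mul_assoc, inv_mul_cancel₀ hg.ne', one_mul]

lemma R_zero {p : E n} (hp : ‖p‖ < 1) (v : E n) (h : R p v = 0) : v = 0 := by
  by_contra hv
  have hg := lf_pos hp
  have hv' : 0 < ‖v‖ := norm_pos_iff.2 hv
  have ha : 0 < aa p v := div_pos hv' (den_pos hp hv)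
  unfold R at h
  have h1 : NN p (aa p v • v + (aa p v * ‖v‖) • p) = 0 := by
    rcases smul_eq_zero.1 h with h | h
    · exact absurd h (inv_pos.2 hg).ne'
    · exact h
  have h2 : aa p v • v + (aa p v * ‖v‖) • p = 0 := by
    have := NI_NN hp (aa p v • v + (aa p v * ‖v‖) • p)
    rw [h1] at this
    rw [← this]
    unfold NI
    simp
  have h3 : aa p v • (v + ‖v‖ • p) = 0 := by
    rw [smul_add, smul_smul]
    exact h2
  have h4 : v + ‖v‖ • p = 0 := by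
    rcases smul_eq_zero.1 h3 with h | h
    · exact absurd h ha.ne'
    · exact h
  have h5 : v = -(‖v‖ • p) := eq_neg_of_add_eq_zero_left h4
  have h6 : ‖v‖ = ‖v‖ * ‖p‖ := by
    conv_lhs => rw [h5]
    rw [norm_neg, norm_smul, norm_norm]
  nlinarith

lemma R_hat {p : E n} (hp : ‖p‖ < 1) (x : E n) (hx : ‖x‖ = 1) :
    R p ((lf p * (1 - inner ℝ p x))⁻¹ • NN p (x - p)) = x := by
  have hg := lf_pos hp
  have hs := lf_sq hp
  have h1 := HL.one_sub_inner_pos hp hx.le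
  have hc : 0 < lf p * (1 - inner ℝ p x) := mul_pos hg h1
  have hn := HL.norm_hat hp hx
  have hin : (inner ℝ p ((lf p * (1 - inner ℝ p x))⁻¹ • NN p (x - p)) : ℝ) =
      (1 - ‖p‖ ^ 2) / (1 - inner ℝ p x) - 1 := by
    rw [inner_smul_right, inner_p_NN hp, inner_sub_right, real_inner_self_eq_norm_sq]
    field_simp
    ring
  have hs1 := norm_sq_lt hp
  have ha : aa p ((lf p * (1 - inner ℝ p x))⁻¹ • NN p (x - p)) =
      (1 - inner ℝ p x) / (1 - ‖p‖ ^ 2) := by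
    unfold aa
    rw [hn, hin]
    rw [show (1 : ℝ) + ((1 - ‖p‖ ^ 2) / (1 - inner ℝ p x) - 1) =
      (1 - ‖p‖ ^ 2) / (1 - inner ℝ p x) by ring]
    rw [one_div_div]
  unfold R
  rw [ha, hn, mul_one, ← smul_add, NN_smul, NN_add, NN_smul, NN_NN hp, NN_self hp,
    inner_sub_right, real_inner_self_eq_norm_sq]
  have h2 : 1 / (1 - ‖p‖ ^ 2) = lf p ^ 2 := by
    rw [div_eq_iff hs1.ne']
    linarith
  have e1 : (1 - inner ℝ p x) / (1 - ‖p‖ ^ 2) = (1 - inner ℝ p x) * lf p ^ 2 := by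
    rw [← h2]
    ring
  rw [e1]
  have e2 : (lf p * (1 - inner ℝ p x))⁻¹ • (x - p + (lf p ^ 2 * (inner ℝ p x - ‖p‖ ^ 2)) • p) +
      lf p • p = (lf p * (1 - inner ℝ p x))⁻¹ • x := by
    have e3 : lf p = (lf p * (1 - inner ℝ p x))⁻¹ * (lf p ^ 2 * (1 - inner ℝ p x)) := by
      field_simp
    have e4 : lf p • p = (lf p * (1 - inner ℝ p x))⁻¹ • ((lf p ^ 2 * (1 - inner ℝ p x)) • p) := by
      rw [smul_smul, ← e3]
    rw [e4, ← smul_add]
    congr 1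
    have e5 : x - p + (lf p ^ 2 * (inner ℝ p x - ‖p‖ ^ 2)) • p +
        (lf p ^ 2 * (1 - inner ℝ p x)) • p = x + (lf p ^ 2 * (1 - ‖p‖ ^ 2) - 1) • p := by
      module
    rw [e5, hs, sub_self, zero_smul, add_zero]
  rw [e2, smul_smul, smul_smul]
  have e6 : (lf p)⁻¹ * ((1 - inner ℝ p x) * lf p ^ 2) * (lf p * (1 - inner ℝ p x))⁻¹ = 1 := by
    field_simp
  rw [e6, one_smul]

theorem main (_h1 : BoostAlg) : RMap := by
  intro n p hp
  exact ⟨R p, 2 * LL p, mul_nonneg zero_le_two (LL_nonneg hp), R_lip hp, R_zero hp, R_hat hp⟩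

end Pool.Agent.Q272.FC.RM
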