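import Pool.Agent.Q188.FC.StmK

set_option autoImplicit false

open MeasureTheory

namespace Pool.Agent.Q272.FC.BA

open Pool.Agent.W716.FV (E gam gd UU)
open Pool.Agent.Q188.FC

variable {n : ℕ}

lemma norm_sq_lt {p : E n} (hp : ‖p‖ < 1) : 0 < 1 - ‖p‖ ^ 2 := by
  have h0 := norm_nonneg p
  nlinarith

lemma lf_pos {p : E n} (hp : ‖p‖ < 1) : 0 < lf p := by
  unfold lf
  exact inv_pos.2 (Real.sqrt_pos.2 (norm_sq_lt hp))

lemma lf_sq {p : E n} (hp : ‖p‖ < 1) : lf p ^ 2 * (1 - ‖p‖ ^ 2) = 1 := by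
  have h := norm_sq_lt hp
  unfold lf
  rw [inv_pow, Real.sq_sqrt h.le]
  exact inv_mul_cancel₀ h.ne'

lemma lf_one_le {p : E n} (hp : ‖p‖ < 1) : 1 ≤ lf p := by
  have h := norm_sq_lt hp
  unfold lf
  apply (one_le_inv₀ (Real.sqrt_pos.2 h)).2
  rw [show (1 : ℝ) = √1 by simp]
  apply Real.sqrt_le_sqrt
  rw [Real.sqrt_one]
  nlinarith [sq_nonneg ‖p‖]

/-- `k = γ²/(1+γ)`, `k ‖p‖² = γ - 1`. -/
lemma k_mul {p : E n} (hp : ‖p‖ < 1) : lf p ^ 2 / (1 + lf p) * ‖p‖ ^ 2 = lf p - 1 := by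
  have h1 := lf_sq hp
  have h2 := lf_pos hp
  have h3 : (1 + lf p) ≠ 0 := by positivity
  field_simp
  nlinarith

lemma k_two {p : E n} (hp : ‖p‖ < 1) : lf p ^ 2 / (1 + lf p) * (lf p + 1) = lf p ^ 2 := by
  have h2 := lf_pos hp
  have h3 : (1 + lf p) ≠ 0 := by positivity
  field_simp
  ring

lemma NN_self {p : E n} (hp : ‖p‖ < 1) : NN p p = lf p • p := by
  unfold NN
  rw [real_inner_self_eq_norm_sq, k_mul hp]
  module

lemma inner_p_NN {p : E n} (hp : ‖p‖ < 1) (v : E n) :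
    (inner ℝ p (NN p v) : ℝ) = lf p * inner ℝ p v := by
  unfold NN
  rw [inner_add_right, inner_smul_right, real_inner_self_eq_norm_sq]
  have := k_mul hp
  linear_combination (inner ℝ p v : ℝ) * this

lemma inner_NN_left {p : E n} (v w : E n) :
    (inner ℝ (NN p v) w : ℝ) = inner ℝ v (NN p w) := by
  unfold NN
  rw [inner_add_right, inner_smul_right, inner_add_left, inner_smul_left, real_inner_comm v p]
  simp only [conj_trivial]
  ring

lemma NN_NN {p : E n} (hp : ‖p‖ < 1) (v : E n) :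
    NN p (NN p v) = v + (lf p ^ 2 * inner ℝ p v) • p := by
  have h1 := inner_p_NN hp v
  have h2 := k_two hp
  have h0 : NN p (NN p v) = NN p v + (lf p ^ 2 / (1 + lf p) * inner ℝ p (NN p v)) • p := rfl
  rw [h0, h1]
  unfold NN
  have h3 : lf p ^ 2 / (1 + lf p) * inner ℝ p v + lf p ^ 2 / (1 + lf p) * (lf p * inner ℝ p v)
      = lf p ^ 2 * inner ℝ p v := by
    linear_combination (inner ℝ p v : ℝ) * h2
  rw [add_assoc, ← add_smul, h3]

lemma inner_NN_NN {p : E n} (hp : ‖p‖ < 1) (v w : E n) :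
    (inner ℝ (NN p v) (NN p w) : ℝ) = inner ℝ v w + lf p ^ 2 * (inner ℝ p v * inner ℝ p w) := by
  rw [inner_NN_left, NN_NN hp, inner_add_right, inner_smul_right, real_inner_comm v p]
  ring

lemma NNL_apply (p v : E n) : NNL p v = NN p v := by
  unfold NNL NN
  simp [smul_smul]

lemma NNL_det {p : E n} (hp : ‖p‖ < 1) : (NNL p).det = lf p := by
  have h : ((NNL p : E n →L[ℝ] E n) : E n →ₗ[ℝ] E n) = LinearMap.transvection
      ((lf p ^ 2 / (1 + lf p)) • ((innerSL ℝ p : E n →L[ℝ] ℝ) : E n →ₗ[ℝ] ℝ)) p := by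
    ext1 v
    show NNL p v = v + ((lf p ^ 2 / (1 + lf p)) • ((innerSL ℝ p : E n →L[ℝ] ℝ) : E n →ₗ[ℝ] ℝ)) v • p
    rw [NNL_apply]
    rfl
  show LinearMap.det ((NNL p : E n →L[ℝ] E n) : E n →ₗ[ℝ] E n) = lf p
  rw [h, LinearMap.transvection.det]
  show 1 + (lf p ^ 2 / (1 + lf p)) * (inner ℝ p p) = lf p
  rw [real_inner_self_eq_norm_sq, k_mul hp]
  ring

lemma NN_add (p v w : E n) : NN p (v + w) = NN p v + NN p w := by
  rw [← NNL_apply, ← NNL_apply, ← NNL_apply, map_add]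

lemma NN_sub (p v w : E n) : NN p (v - w) = NN p v - NN p w := by
  rw [← NNL_apply, ← NNL_apply, ← NNL_apply, map_sub]

lemma NN_smul (p : E n) (c : ℝ) (v : E n) : NN p (c • v) = c • NN p v := by
  rw [← NNL_apply, ← NNL_apply, map_smul]

lemma inner_p_NI {p : E n} (hp : ‖p‖ < 1) (v : E n) :
    (inner ℝ p (NI p v) : ℝ) = (lf p)⁻¹ * inner ℝ p v := by
  have h1 := lf_pos hp
  have h2 := lf_sq hp
  have h3 : (1 + lf p) ≠ 0 := by positivity
  unfold NI
  rw [inner_sub_right, inner_smul_right, real_inner_self_eq_norm_sq]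
  field_simp
  have h4 : lf p ^ 2 * ‖p‖ ^ 2 = lf p ^ 2 - 1 := by linarith
  linear_combination (-(inner ℝ p v : ℝ)) * h4

lemma NI_NN {p : E n} (hp : ‖p‖ < 1) (v : E n) : NI p (NN p v) = v := by
  have h1 := lf_pos hp
  have h3 : (1 + lf p) ≠ 0 := by positivity
  unfold NI
  rw [inner_p_NN hp]
  unfold NN
  have : lf p / (1 + lf p) * (lf p * inner ℝ p v) = lf p ^ 2 / (1 + lf p) * inner ℝ p v := by
    ring
  rw [this]
  module

lemma NN_NI {p : E n} (hp : ‖p‖ < 1) (v : E n) : NN p (NI p v) = v := by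
  have h1 := lf_pos hp
  have h3 : (1 + lf p) ≠ 0 := by positivity
  unfold NN
  rw [inner_p_NI hp]
  unfold NI
  have : lf p ^ 2 / (1 + lf p) * ((lf p)⁻¹ * inner ℝ p v) = lf p / (1 + lf p) * inner ℝ p v := by
    field_simp
  rw [this]
  module

lemma Lam_Lami {p : E n} (hp : ‖p‖ < 1) (a : ℝ × E n) : Lam p (Lami p a) = a := by
  have h1 := lf_pos hp
  have h2 := lf_sq hp
  obtain ⟨t, z⟩ := a
  have h4 : lf p ^ 2 * ‖p‖ ^ 2 = lf p ^ 2 - 1 := by linarith
  have hA : (inner ℝ p (NN p z + (lf p * t) • p) : ℝ) = lf p * inner ℝ p z + lf p * t * ‖p‖ ^ 2 := by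
    rw [inner_add_right, inner_smul_right, real_inner_self_eq_norm_sq, inner_p_NN hp]
  unfold Lam Lami
  refine Prod.ext ?_ ?_
  · show lf p * (lf p * (t + inner ℝ p z) - inner ℝ p (NN p z + (lf p * t) • p)) = t
    rw [hA]
    linear_combination (-t) * h4
  · show NN p (NN p z + (lf p * t) • p) - (lf p * (lf p * (t + inner ℝ p z))) • p = z
    rw [NN_add, NN_NN hp, NN_smul, NN_self hp, smul_smul]
    have : lf p * (lf p * (t + inner ℝ p z)) = lf p ^ 2 * inner ℝ p z + lf p * t * lf p := by ring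
    rw [this, add_smul]
    abel

lemma Lami_Lam {p : E n} (hp : ‖p‖ < 1) (a : ℝ × E n) : Lami p (Lam p a) = a := by
  have h1 := lf_pos hp
  have h2 := lf_sq hp
  obtain ⟨t, z⟩ := a
  have h4 : lf p ^ 2 * ‖p‖ ^ 2 = lf p ^ 2 - 1 := by linarith
  have hA : (inner ℝ p (NN p z - (lf p * t) • p) : ℝ) = lf p * inner ℝ p z - lf p * t * ‖p‖ ^ 2 := by
    rw [inner_sub_right, inner_smul_right, real_inner_self_eq_norm_sq, inner_p_NN hp]
  unfold Lam Lami
  refine Prod.ext ?_ ?_
  · show lf p * (lf p * (t - inner ℝ p z) + inner ℝ p (NN p z - (lf p * t) • p)) = t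
    rw [hA]
    linear_combination (-t) * h4
  · show NN p (NN p z - (lf p * t) • p) + (lf p * (lf p * (t - inner ℝ p z))) • p = z
    rw [NN_sub, NN_NN hp, NN_smul, NN_self hp, smul_smul]
    have : lf p * (lf p * (t - inner ℝ p z)) = lf p * t * lf p - lf p ^ 2 * inner ℝ p z := by ring
    rw [this, sub_smul]
    abel

lemma Lam_form {p : E n} (hp : ‖p‖ < 1) (a : ℝ × E n) :
    ‖(Lam p a).2‖ ^ 2 - (Lam p a).1 ^ 2 = ‖a.2‖ ^ 2 - a.1 ^ 2 := by
  have h2 := lf_sq hp
  obtain ⟨t, y⟩ := a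
  show ‖NN p y - (lf p * t) • p‖ ^ 2 - (lf p * (t - inner ℝ p y)) ^ 2 = ‖y‖ ^ 2 - t ^ 2
  have hA : ‖NN p y - (lf p * t) • p‖ ^ 2 = ‖y‖ ^ 2 + lf p ^ 2 * (inner ℝ p y) ^ 2
      - 2 * (lf p * t) * (lf p * inner ℝ p y) + (lf p * t) ^ 2 * ‖p‖ ^ 2 := by
    rw [← real_inner_self_eq_norm_sq, inner_sub_left, inner_sub_right, inner_sub_right,
      inner_smul_left, inner_smul_right, inner_smul_left, inner_smul_right,
      real_inner_self_eq_norm_sq p, inner_NN_NN hp, real_inner_comm p (NN p y), inner_p_NN hp,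
      real_inner_self_eq_norm_sq]
    simp only [conj_trivial]
    ring
  rw [hA]
  linear_combination (-(t ^ 2)) * h2

/-- `Lam` as a linear map. -/
noncomputable def LamL (p : E n) : (ℝ × E n) →ₗ[ℝ] (ℝ × E n) where
  toFun := Lam p
  map_add' a b := by
    unfold Lam
    refine Prod.ext ?_ ?_
    · simp only [Prod.fst_add, Prod.snd_add, inner_add_right]
      ring
    · simp only [Prod.fst_add, Prod.snd_add, NN_add]
      module
  map_smul' c a := by
    unfold Lam
    refine Prod.ext ?_ ?_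
    · simp only [Prod.smul_fst, Prod.smul_snd, inner_smul_right, RingHom.id_apply, smul_eq_mul]
      ring
    · simp only [Prod.smul_fst, Prod.smul_snd, NN_smul, RingHom.id_apply, smul_eq_mul]
      module

/-- `Lami` as a linear map. -/
noncomputable def LamiL (p : E n) : (ℝ × E n) →ₗ[ℝ] (ℝ × E n) where
  toFun := Lami p
  map_add' a b := by
    unfold Lami
    refine Prod.ext ?_ ?_
    · simp only [Prod.fst_add, Prod.snd_add, inner_add_right]
      ring
    · simp only [Prod.fst_add, Prod.snd_add, NN_add]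
      module
  map_smul' c a := by
    unfold Lami
    refine Prod.ext ?_ ?_
    · simp only [Prod.smul_fst, Prod.smul_snd, inner_smul_right, RingHom.id_apply, smul_eq_mul]
      ring
    · simp only [Prod.smul_fst, Prod.smul_snd, NN_smul, RingHom.id_apply, smul_eq_mul]
      module

/-- the reflection `(t, y) ↦ (t, -y)` -/
noncomputable def JL (n : ℕ) : (ℝ × E n) →ₗ[ℝ] (ℝ × E n) :=
  LinearMap.prodMap LinearMap.id (-LinearMap.id)

lemma JL_apply (a : ℝ × E n) : JL n a = (a.1, -a.2) := rfl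

lemma NN_neg (p v : E n) : NN p (-v) = -NN p v := by
  rw [← NNL_apply, ← NNL_apply, map_neg]

lemma LamL_J (p : E n) : LamL p ∘ₗ JL n = JL n ∘ₗ LamiL p := by
  apply LinearMap.ext
  intro a
  show Lam p (a.1, -a.2) = ((Lami p a).1, -(Lami p a).2)
  unfold Lam Lami
  refine Prod.ext ?_ ?_
  · show lf p * (a.1 - inner ℝ p (-a.2)) = lf p * (a.1 + inner ℝ p a.2)
    rw [inner_neg_right]
    ring
  · show NN p (-a.2) - (lf p * a.1) • p = -(NN p a.2 + (lf p * a.1) • p)
    rw [NN_neg]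
    abel

lemma abs_det_LamL {p : E n} (hp : ‖p‖ < 1) : |LinearMap.det (LamL p)| = 1 := by
  have h1 : LamL p ∘ₗ LamiL p = LinearMap.id := by
    apply LinearMap.ext
    intro a
    exact Lam_Lami hp a
  have h2 : JL n ∘ₗ JL n = LinearMap.id := by
    apply LinearMap.ext
    intro a
    show ((a.1 : ℝ), -(-a.2)) = a
    rw [neg_neg]
  have h3 : LinearMap.det (LamL p) * LinearMap.det (LamiL p) = 1 := by
    rw [← LinearMap.det_comp, h1, LinearMap.det_id]
  have h4 : LinearMap.det (JL n) * LinearMap.det (JL n) = 1 := by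
    rw [← LinearMap.det_comp, h2, LinearMap.det_id]
  have h5 : LinearMap.det (LamL p) * LinearMap.det (JL n) =
      LinearMap.det (JL n) * LinearMap.det (LamiL p) := by
    rw [← LinearMap.det_comp, ← LinearMap.det_comp, LamL_J]
  have h6 : LinearMap.det (JL n) ≠ 0 := by
    intro h
    rw [h] at h4
    norm_num at h4
  have h7 : LinearMap.det (LamL p) = LinearMap.det (LamiL p) := by
    apply mul_right_cancel₀ h6
    rw [h5]
    ring
  rw [← h7] at h3
  have h8 : |LinearMap.det (LamL p)| * |LinearMap.det (LamL p)| = 1 := by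
    rw [← abs_mul, h3, abs_one]
  have h9 := abs_nonneg (LinearMap.det (LamL p))
  nlinarith

lemma NN_cont (p : E n) : Continuous (NN p) := by
  have : NN p = fun v => NNL p v := by
    funext v
    rw [NNL_apply]
  rw [this]
  exact (NNL p).continuous

lemma Lam_cont (p : E n) : Continuous (Lam p) := by
  unfold Lam
  have := NN_cont p
  fun_prop

lemma Lam_mp {p : E n} (hp : ‖p‖ < 1) :
    MeasurePreserving (Lam p) (volume : Measure (ℝ × E n)) volume := by
  refine ⟨(Lam_cont p).measurable, ?_⟩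
  have hd := abs_det_LamL hp
  have hne : LinearMap.det (LamL p) ≠ 0 := by
    intro h
    rw [h] at hd
    simp at hd
  haveI : (volume : Measure (ℝ × E n)).IsAddHaarMeasure := by
    rw [Measure.volume_eq_prod]
    infer_instance
  have h := Measure.map_linearMap_addHaar_eq_smul_addHaar (volume : Measure (ℝ × E n)) hne
  rw [abs_inv, hd, inv_one, ENNReal.ofReal_one, one_smul] at h
  exact h

lemma ww_eq {p : E n} (hp : ‖p‖ < 1) (t : ℝ) (y : E n) : ww p t y = ‖(Lam p (t, y)).2‖ ^ 2 := by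
  have h := Lam_form hp (t, y)
  have h1 : (Lam p (t, y)).1 = lf p * (t - inner ℝ p y) := rfl
  rw [h1] at h
  unfold ww
  simp only at h
  linarith

lemma gk_eq {p : E n} (hp : ‖p‖ < 1) (t : ℝ) (y : E n) :
    gk p t y = (lf p)⁻¹ • NN p (gd n (Lam p (t, y)).2 • (Lam p (t, y)).2) := by
  have h1 : NN p (Lam p (t, y)).2 = y - (lf p ^ 2 * (t - inner ℝ p y)) • p := by
    show NN p (NN p y - (lf p * t) • p) = _
    rw [NN_sub, NN_smul, NN_NN hp, NN_self hp]
    module
  rw [NN_smul, h1, smul_smul]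
  unfold gk gd
  rw [ww_eq hp]
  congr 1
  ring

theorem main : BoostAlg := by
  intro n p hp
  exact ⟨lf_one_le hp, lf_sq hp, NN_self hp, NNL_apply p, NNL_det hp, inner_NN_NN hp,
    inner_NN_left, inner_p_NN hp, NI_NN hp, NN_NI hp, Lam_Lami hp, Lami_Lam hp, Lam_form hp,
    Lam_cont p, Lam_mp hp, ww_eq hp, gk_eq hp⟩

end Pool.Agent.Q272.FC.BA
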